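import Pool.Agent.FGT.Stmts

/-!
# Squad FGT, row FAM: finite dimensional equivariant maps
-/

set_option autoImplicit false

namespace Pool.Agent.FGT.H51

open Filter Topology Module

universe u

section J

variable {Λ : Type} (J : (Λ → ℝ) → ℝ)
  (hadd : ∀ f g, Bdd f → Bdd g → J (f + g) = J f + J g)
  (hsm : ∀ (c : ℝ) f, Bdd f → J (c • f) = c * J f)
  (hpos : ∀ f, Bdd f → (∀ x, 0 ≤ f x) → 0 ≤ J f)

theorem bdd_add {f g : Λ → ℝ} (hf : Bdd f) (hg : Bdd g) : Bdd (f + g) := by
  obtain ⟨C, hC⟩ := hf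
  obtain ⟨D, hD⟩ := hg
  exact ⟨C + D, fun x => (abs_add_le _ _).trans (add_le_add (hC x) (hD x))⟩

theorem bdd_smul {f : Λ → ℝ} (c : ℝ) (hf : Bdd f) : Bdd (c • f) := by
  obtain ⟨C, hC⟩ := hf
  refine ⟨|c| * C, fun x => ?_⟩
  rw [Pi.smul_apply, smul_eq_mul, abs_mul]
  exact mul_le_mul_of_nonneg_left (hC x) (abs_nonneg c)

theorem bdd_zero : Bdd (0 : Λ → ℝ) := ⟨0, fun x => by simp⟩

theorem bdd_const (c : ℝ) : Bdd (fun _ : Λ => c) := ⟨|c|, fun _ => le_rfl⟩

theorem bdd_mul {f g : Λ → ℝ} (hf : Bdd f) (hg : Bdd g) : Bdd (fun x => f x * g x) := by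
  obtain ⟨C, hC⟩ := hf
  obtain ⟨D, hD⟩ := hg
  refine ⟨C * D, fun x => ?_⟩
  rw [abs_mul]
  exact mul_le_mul (hC x) (hD x) (abs_nonneg _) ((abs_nonneg _).trans (hC x))

include hadd hsm hpos in
theorem J_mono {f g : Λ → ℝ} (hf : Bdd f) (hg : Bdd g) (h : ∀ x, f x ≤ g x) : J f ≤ J g := by
  have h1 := hpos (g + (-1 : ℝ) • f) (bdd_add hg (bdd_smul _ hf)) (fun x => by
    rw [Pi.add_apply, Pi.smul_apply, smul_eq_mul]
    have := h x
    linarith)
  rw [hadd _ _ hg (bdd_smul _ hf), hsm _ _ hf] at h1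
  linarith

include hsm in
theorem J_zero : J 0 = 0 := by
  have h := hsm 0 0 bdd_zero
  rw [smul_zero, zero_mul] at h
  exact h

include hadd hsm in
theorem J_sum_zero {ι : Type*} (s : Finset ι) (f : ι → Λ → ℝ) (hb : ∀ i, Bdd (f i))
    (h0 : ∀ i, J (f i) = 0) : Bdd (∑ i ∈ s, f i) ∧ J (∑ i ∈ s, f i) = 0 := by
  classical
  induction s using Finset.induction_on with
  | empty => exact ⟨by rw [Finset.sum_empty]; exact bdd_zero, by
      rw [Finset.sum_empty]; exact J_zero J hsm⟩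
  | insert a s ha ih =>
    rw [Finset.sum_insert ha]
    exact ⟨bdd_add (hb a) ih.1, by rw [hadd _ _ (hb a) ih.1, h0, ih.2, add_zero]⟩

end J

theorem fam (h1 : GnsStmt.{u}) (h2 : OpcStmt) : FamStmt.{u} := by
  intro G _ Λ _ htr k D hsym hinv hpsd hD hcov J hadd hsm hpos hone hJinv x₁ x₂ hne
  obtain ⟨H, iN, iI, iC, ξ, π, hξ, hπ, htot⟩ := h1 G Λ k hsym hinv hpsd
  have hnorm : ∀ x, ‖ξ x‖ ^ 2 = D := fun x => by
    rw [← real_inner_self_eq_norm_sq, hξ, hD]
  have hsub : ∀ x y, ‖ξ x - ξ y‖ ^ 2 = 2 * (D - k x y) := by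
    intro x y
    rw [norm_sub_sq_real, hnorm, hnorm, hξ]
    ring
  -- the approximation property
  have happ : ∀ δ : ℝ, 0 < δ → ∃ F : Finset Λ, ∀ x, ∃ f ∈ F, ‖ξ x - ξ f‖ < δ := by
    intro δ hδ
    obtain ⟨F, hF⟩ := hcov (δ ^ 2 / 2) (by positivity)
    refine ⟨F, fun x => ?_⟩
    obtain ⟨f, hf, hlt⟩ := hF x
    refine ⟨f, hf, ?_⟩
    have h3 : ‖ξ x - ξ f‖ ^ 2 < δ ^ 2 := by rw [hsub]; linarith
    exact lt_of_pow_lt_pow_left₀ 2 hδ.le h3
  have htb : TotallyBounded (Set.range ξ) := by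
    rw [Metric.totallyBounded_iff]
    intro ε hε
    obtain ⟨F, hF⟩ := happ ε hε
    refine ⟨ξ '' (F : Set Λ), F.finite_toSet.image ξ, ?_⟩
    rintro _ ⟨x, rfl⟩
    obtain ⟨f, hf, hlt⟩ := hF x
    refine Set.mem_biUnion (Set.mem_image_of_mem ξ hf) ?_
    rw [Metric.mem_ball, dist_eq_norm]
    exact hlt
  obtain ⟨A, hAc, hA⟩ := h2 H Λ ξ D (fun x => by rw [hξ, hD]) htb J hadd hsm hpos
  -- boundedness
  have hb1 : ∀ v : H, Bdd (fun x => inner ℝ (ξ x) v) := by
    intro v
    refine ⟨√D * ‖v‖, fun x => ?_⟩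
    have h3 := abs_real_inner_le_norm (ξ x) v
    have h4 : ‖ξ x‖ = √D := by rw [← hnorm x, Real.sqrt_sq (norm_nonneg _)]
    rwa [h4] at h3
  have hb2 : ∀ v w : H, Bdd (fun x => inner ℝ (ξ x) v * inner ℝ (ξ x) w) := fun v w =>
    bdd_mul (hb1 v) (hb1 w)
  -- symmetry
  have hAs : (A : H →ₗ[ℝ] H).IsSymmetric := by
    intro v w
    show inner ℝ (A v) w = inner ℝ v (A w)
    rw [hA, real_inner_comm, hA]
    congr 1
    funext x
    rw [mul_comm]
  -- equivariance
  have hcom : ∀ (g : G) (v : H), A (π g v) = π g (A v) := by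
    intro g v
    refine ext_inner_right ℝ fun w => ?_
    obtain ⟨w', rfl⟩ := (π g).surjective w
    rw [LinearIsometryEquiv.inner_map_map, hA, hA, ← hJinv g _ (hb2 _ _)]
    congr 1
    funext x
    rw [← hπ, LinearIsometryEquiv.inner_map_map, LinearIsometryEquiv.inner_map_map]
  -- injectivity
  have hinj : ∀ v : H, A v = 0 → v = 0 := by
    intro v hv
    refine htot v fun x₀ => ?_
    by_contra hc
    set c : ℝ := inner ℝ v (ξ x₀) with hcdef
    have hv0 : v ≠ 0 := by
      rintro rfl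
      rw [inner_zero_left] at hcdef
      exact hc hcdef
    have hvn : 0 < ‖v‖ := norm_pos_iff.2 hv0
    have hcp : 0 < |c| := abs_pos.2 hc
    set f : Λ → ℝ := fun x => inner ℝ (ξ x) v * inner ℝ (ξ x) v with hf
    have hfb : Bdd f := hb2 v v
    have hJf : J f = 0 := by
      rw [hf, ← hA, hv, inner_zero_left]
    obtain ⟨F, hF⟩ := happ (|c| / (2 * ‖v‖)) (by positivity)
    choose gg hgg using fun y : Λ => htr.exists_smul_eq y x₀
    have hsum := J_sum_zero J hadd hsm F (fun y x => f (gg y • x))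
      (fun y => by
        obtain ⟨C, hC⟩ := hfb
        exact ⟨C, fun x => hC _⟩)
      (fun y => by rw [hJinv (gg y) f hfb, hJf])
    have hge : ∀ x, |c| ^ 2 / 4 ≤ (∑ y ∈ F, fun x => f (gg y • x)) x := by
      intro x
      rw [Finset.sum_apply]
      obtain ⟨y, hy, hlt⟩ := hF x
      have h5 : |c| ^ 2 / 4 ≤ f (gg y • x) := by
        have h6 : ‖ξ (gg y • x) - ξ x₀‖ < |c| / (2 * ‖v‖) := by
          rw [← hgg y, ← hπ, ← hπ, ← map_sub, LinearIsometryEquiv.norm_map]
          exact hlt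
        have h7 : |inner ℝ (ξ (gg y • x) - ξ x₀) v| ≤ |c| / 2 := by
          refine (abs_real_inner_le_norm _ _).trans ?_
          have h8 : ‖ξ (gg y • x) - ξ x₀‖ * ‖v‖ ≤ |c| / (2 * ‖v‖) * ‖v‖ :=
            mul_le_mul_of_nonneg_right h6.le hvn.le
          have h9 : |c| / (2 * ‖v‖) * ‖v‖ = |c| / 2 := by field_simp
          rwa [h9] at h8
        have h10 : inner ℝ (ξ (gg y • x)) v = c + inner ℝ (ξ (gg y • x) - ξ x₀) v := by
          rw [inner_sub_left, hcdef, real_inner_comm v (ξ x₀)]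
          ring
        have h11 : |c| / 2 ≤ |inner ℝ (ξ (gg y • x)) v| := by
          rw [h10]
          have h12 := abs_sub_abs_le_abs_sub c (-(inner ℝ (ξ (gg y • x) - ξ x₀) v))
          rw [abs_neg, sub_neg_eq_add] at h12
          linarith
        show |c| ^ 2 / 4 ≤ inner ℝ (ξ (gg y • x)) v * inner ℝ (ξ (gg y • x)) v
        rw [← abs_mul_abs_self (inner ℝ (ξ (gg y • x)) v)]
        nlinarith
      refine h5.trans ?_
      exact Finset.single_le_sum (f := fun y => f (gg y • x))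
        (fun i _ => mul_self_nonneg (inner ℝ (ξ (gg i • x)) v)) hy
    have h13 := J_mono J hadd hsm hpos (f := (|c| ^ 2 / 4) • fun _ => (1 : ℝ))
      (bdd_smul _ (bdd_const 1)) hsum.1 (fun x => by
        rw [Pi.smul_apply, smul_eq_mul, mul_one]
        exact hge x)
    rw [hsm _ _ (bdd_const 1), hone, hsum.2] at h13
    have : 0 < |c| ^ 2 / 4 * 1 := by positivity
    linarith
  -- the eigenspace
  have hu : ξ x₁ - ξ x₂ ≠ 0 := by
    intro h0
    have h3 := hsub x₁ x₂
    rw [h0, norm_zero] at h3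
    apply hne
    nlinarith
  have hsp := ContinuousLinearMap.orthogonalComplement_iSup_eigenspaces_eq_bot hAc hAs
  have hex : ∃ μ : ℝ, ∃ e ∈ End.eigenspace (A : End ℝ H) μ, inner ℝ e (ξ x₁ - ξ x₂) ≠ 0 := by
    by_contra hcon
    push Not at hcon
    apply hu
    have h3 : ξ x₁ - ξ x₂ ∈ (⨆ μ, End.eigenspace (A : End ℝ H) μ)ᗮ := by
      rw [Submodule.mem_orthogonal]
      intro w hw
      refine Submodule.iSup_induction (fun μ => End.eigenspace (A : End ℝ H) μ)
        (motive := fun w => inner ℝ w (ξ x₁ - ξ x₂) = 0) hw (fun μ e he => hcon μ e he) ?_ ?_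
      · exact inner_zero_left _
      · intro a b ha hb
        rw [inner_add_left, ha, hb, add_zero]
    rw [hsp] at h3
    exact (Submodule.mem_bot ℝ).1 h3
  obtain ⟨μ, e, he, hei⟩ := hex
  have hμ : μ ≠ 0 := by
    rintro rfl
    rw [End.mem_eigenspace_iff, zero_smul] at he
    have h3 := hinj e he
    rw [h3, inner_zero_left] at hei
    exact hei rfl
  have hfd : FiniteDimensional ℝ (End.eigenspace (A : End ℝ H) μ) :=
    ContinuousLinearMap.finite_dimensional_eigenspace hAc μ hμ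
  set W : Submodule ℝ H := End.eigenspace (A : End ℝ H) μ with hW
  have hWπ : ∀ (g : G) (v : H), v ∈ W → π g v ∈ W := by
    intro g v hv
    rw [hW, End.mem_eigenspace_iff] at hv ⊢
    have hv' : A v = μ • v := hv
    show A (π g v) = μ • π g v
    rw [hcom, hv', map_smul]
  have hP : ∀ (g : G) (v : H), W.starProjection (π g v) = π g (W.starProjection v) := by
    intro g v
    refine Submodule.eq_starProjection_of_mem_of_inner_eq_zero
      (hWπ g _ (Submodule.starProjection_apply_mem W v)) fun z hz => ?_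
    have hz' : z = π g (π g⁻¹ z) := by
      have h3 : (π g * π g⁻¹) z = z := by rw [← map_mul, mul_inv_cancel, map_one]; rfl
      exact h3.symm
    rw [hz', ← map_sub, LinearIsometryEquiv.inner_map_map]
    exact Submodule.starProjection_inner_eq_zero v _ (hWπ g⁻¹ z hz)
  refine ⟨W, inferInstance, inferInstance,
    { toFun := fun g => (π g).toLinearEquiv.toLinearMap.restrict (fun v hv => hWπ g v hv)
      map_one' := ?_
      map_mul' := ?_ }, fun x => ⟨W.starProjection (ξ x), Submodule.starProjection_apply_mem W _⟩,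
    hfd, ?_, ?_⟩
  · ext v
    show ((π 1) (v : H)) = v
    rw [map_one]; rfl
  · intro g h
    ext v
    show (π (g * h)) (v : H) = π g (π h (v : H))
    rw [map_mul]; rfl
  · intro g x
    apply Subtype.ext
    show W.starProjection (ξ (g • x)) = π g (W.starProjection (ξ x))
    rw [← hπ, hP]
  · intro h0
    have h3 : W.starProjection (ξ x₁) = W.starProjection (ξ x₂) := congrArg Subtype.val h0
    apply hei
    have h4 := Submodule.starProjection_inner_eq_zero (K := W) (ξ x₁ - ξ x₂) e he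
    rw [map_sub, h3, sub_self, sub_zero, real_inner_comm] at h4
    exact h4

end Pool.Agent.FGT.H51
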